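import Pool.Agent.N659.HB.Stm5
import Pool.Agent.W792.WA.Stm5

/-!
# The first level: uniform absorption
-/

set_option autoImplicit false

namespace Pool.Agent.N803.NP.Lev1

open MeasureTheory Filter Pool.Agent.W792.LL Pool.Agent.W792.WA Pool.Agent.N659.HB
open scoped Topology ENNReal

/-- the choice of `g` -/
theorem exg (p κ D ε : ℝ) (hp : 1 < p) (hp2 : p < 2) (hκ : 0 < κ) (hD : 0 < D) (hε : 0 < ε) :
    ∃ g : ℝ, 0 < g ∧ g ≤ 1 ∧ ∀ τ : ℝ, κ / (256 * (D + 3) ^ 4) * g ^ 2 ≤ τ →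
      2 * g ^ p * τ ^ (1 - p) / (p - 1) ≤ ε := by
  set c : ℝ := κ / (256 * (D + 3) ^ 4) with hc
  have hc0 : 0 < c := by positivity
  have hp1 : 0 < p - 1 := by linarith
  have h2p : 0 < 2 - p := by linarith
  set C : ℝ := 2 * c ^ (1 - p) / (p - 1) with hC
  have hC0 : 0 < C := by positivity
  refine ⟨min 1 ((ε / C) ^ (1 / (2 - p))), lt_min one_pos (by positivity), min_le_left _ _, ?_⟩
  set g : ℝ := min 1 ((ε / C) ^ (1 / (2 - p))) with hg
  have hg0 : 0 < g := lt_min one_pos (by positivity)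
  intro τ hτ
  have hcg : 0 < c * g ^ 2 := by positivity
  have h1 : τ ^ (1 - p) ≤ (c * g ^ 2) ^ (1 - p) :=
    Real.rpow_le_rpow_of_nonpos hcg hτ (by linarith)
  have h2 : (c * g ^ 2) ^ (1 - p) = c ^ (1 - p) * g ^ (2 - 2 * p) := by
    rw [Real.mul_rpow hc0.le (by positivity), ← Real.rpow_natCast g 2, ← Real.rpow_mul hg0.le]
    congr 2
    push_cast
    ring
  have h3 : g ^ p * g ^ (2 - 2 * p) = g ^ (2 - p) := by
    rw [← Real.rpow_add hg0]
    congr 1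
    ring
  have h4 : g ^ (2 - p) ≤ ε / C := by
    calc g ^ (2 - p) ≤ ((ε / C) ^ (1 / (2 - p))) ^ (2 - p) :=
          Real.rpow_le_rpow hg0.le (min_le_right _ _) h2p.le
      _ = ε / C := by
          rw [← Real.rpow_mul (by positivity), one_div_mul_cancel h2p.ne', Real.rpow_one]
  calc 2 * g ^ p * τ ^ (1 - p) / (p - 1)
      ≤ 2 * g ^ p * (c ^ (1 - p) * g ^ (2 - 2 * p)) / (p - 1) := by
        rw [← h2]
        gcongr
    _ = C * g ^ (2 - p) := by
        rw [← h3, hC]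
        ring
    _ ≤ C * (ε / C) := mul_le_mul_of_nonneg_left h4 hC0.le
    _ = ε := by
        field_simp

theorem meas_cayx (x : ℂ) : Measurable fun a : ℝ => cayx x a := by
  unfold cayx
  fun_prop

/-- absorption -/
theorem cayx_le {D g : ℝ} (hD : 0 < D) (hg : 0 < g) (hg1 : g ≤ 1) {x : ℂ} (hx : ‖x‖ ≤ D)
    (hxi : x.im < 0) {a : ℝ} (ha : |a| ≤ 1) :
    ‖cayx (x - g * Complex.I) a‖ ≤ 1 - 2 * g / (D + 3) ^ 2 := by
  set y : ℂ := x - g * Complex.I + a with hy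
  have hyi : y.im ≤ -g := by
    rw [hy]
    simp
    linarith
  have hyn : ‖y - Complex.I‖ ≤ D + 3 := by
    have h0 : y - Complex.I = x + (-(g * Complex.I)) + (a : ℂ) + (-Complex.I) := by
      rw [hy]
      ring
    rw [h0]
    calc ‖x + (-(g * Complex.I)) + (a : ℂ) + (-Complex.I)‖
        ≤ ‖x‖ + ‖-(g * Complex.I)‖ + ‖(a : ℂ)‖ + ‖-Complex.I‖ := norm_add₄_le
      _ ≤ D + 1 + 1 + 1 := by
          gcongr
          · rw [norm_neg, norm_mul, Complex.norm_I, mul_one, Complex.norm_real,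
              Real.norm_of_nonneg hg.le]
            exact hg1
          · rw [Complex.norm_real]
            exact ha
          · rw [norm_neg, Complex.norm_I]
      _ = D + 3 := by ring
  have hne : y - Complex.I ≠ 0 := by
    intro h
    have := congrArg Complex.im h
    simp at this
    linarith
  have hpos : 0 < ‖y - Complex.I‖ := norm_pos_iff.2 hne
  have hid : ‖y + Complex.I‖ ^ 2 = ‖y - Complex.I‖ ^ 2 + 4 * y.im := by
    rw [← Complex.normSq_eq_norm_sq, ← Complex.normSq_eq_norm_sq, Complex.normSq_apply,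
      Complex.normSq_apply]
    simp
    ring
  have hL : 0 < (D + 3) ^ 2 := by positivity
  have hu1 : 2 * g / (D + 3) ^ 2 ≤ 2 / 9 := by
    rw [div_le_div_iff₀ hL (by norm_num)]
    nlinarith
  have hu0 : 0 < 2 * g / (D + 3) ^ 2 := by positivity
  have hw : ‖cayx (x - g * Complex.I) a‖ = ‖y + Complex.I‖ / ‖y - Complex.I‖ := by
    unfold cayx
    rw [norm_div, hy]
  rw [hw, div_le_iff₀ hpos]
  apply le_of_sq_le_sq _ (by nlinarith)
  rw [mul_pow, hid]
  have h1 : ‖y - Complex.I‖ ^ 2 ≤ (D + 3) ^ 2 := pow_le_pow_left₀ hpos.le hyn 2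
  have h2 : 2 * (2 * g / (D + 3) ^ 2) * ‖y - Complex.I‖ ^ 2 ≤ 4 * g := by
    calc 2 * (2 * g / (D + 3) ^ 2) * ‖y - Complex.I‖ ^ 2
        ≤ 2 * (2 * g / (D + 3) ^ 2) * (D + 3) ^ 2 := by gcongr
      _ = 4 * g := by field_simp; ring
  have h3 : 0 ≤ (2 * g / (D + 3) ^ 2) ^ 2 * ‖y - Complex.I‖ ^ 2 := by positivity
  nlinarith

/-- perturbation of `B / (1 + s B)` -/
theorem us_pert {U0 B0 B s : ℂ} {e1 q0 : ℝ} (hU : ‖U0‖ ≤ q0) (hq : q0 ≤ 1) (hs : ‖s‖ ≤ 1)
    (h1 : 1 - U0 * s ≠ 0) (hB0 : U0 / (1 - U0 * s) = B0) (he : ‖B - B0‖ ≤ e1)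
    (he1 : e1 ≤ 1 / 4) : ‖B / (1 + s * B)‖ ≤ q0 + 8 * e1 := by
  have he0 : 0 ≤ e1 := (norm_nonneg _).trans he
  set v : ℂ := 1 - U0 * s with hv
  have hv2 : ‖v‖ ≤ 2 := by
    calc ‖v‖ ≤ ‖(1 : ℂ)‖ + ‖U0 * s‖ := norm_sub_le _ _
      _ ≤ 1 + 1 * 1 := by
          rw [norm_one, norm_mul]
          gcongr
          exact hU.trans hq
      _ = 2 := by norm_num
  set e : ℂ := B - B0 with hee
  have hB : B = U0 / v + e := by
    rw [hB0, hee]
    ring
  have hsev : ‖s * e * v‖ ≤ 1 / 2 := by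
    rw [norm_mul, norm_mul]
    calc ‖s‖ * ‖e‖ * ‖v‖ ≤ 1 * e1 * 2 := by gcongr
      _ ≤ 1 / 2 := by linarith
  have hden : 1 / 2 ≤ ‖1 + s * e * v‖ := by
    have h2 : ‖(1 : ℂ)‖ - ‖-(s * e * v)‖ ≤ ‖(1 : ℂ) - -(s * e * v)‖ := norm_sub_norm_le _ _
    rw [sub_neg_eq_add, norm_neg, norm_one] at h2
    linarith
  have hdne : 1 + s * e * v ≠ 0 := by
    intro h
    rw [h, norm_zero] at hden
    linarith
  have hUU : B / (1 + s * B) = U0 + e * v ^ 2 / (1 + s * e * v) := by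
    have h3 : 1 + s * B = (1 + s * e * v) / v := by
      rw [hB]
      field_simp
      rw [hv]
      ring
    have h4 : (U0 / v + e) * v = U0 + e * v := by field_simp
    have hv' : U0 * s = 1 - v := by rw [hv]; ring
    rw [h3, hB, div_div_eq_mul_div, h4, div_eq_iff hdne, add_mul, div_mul_cancel₀ _ hdne]
    linear_combination (-(e * v)) * hv'
  rw [hUU]
  calc ‖U0 + e * v ^ 2 / (1 + s * e * v)‖ ≤ ‖U0‖ + ‖e * v ^ 2 / (1 + s * e * v)‖ := norm_add_le _ _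
    _ ≤ q0 + 8 * e1 := by
        gcongr
        rw [norm_div, norm_mul, norm_pow, div_le_iff₀ (by linarith)]
        calc ‖e‖ * ‖v‖ ^ 2 ≤ e1 * 2 ^ 2 := by gcongr
          _ = 8 * e1 * (1 / 2) := by ring
          _ ≤ 8 * e1 * ‖1 + s * e * v‖ := by gcongr

instance fin_lev (ψ : C(UnitAddCircle, ℝ)) (R : ℝ) : IsFiniteMeasure (lev ψ R) := by
  unfold lev
  infer_instance

/-- the average over the first level -/
theorem avg_lev (hCX : S_CX) (hCAU : S_CAUI) {ψ : C(UnitAddCircle, ℝ)} {R g τ η : ℝ} (hg : 0 < g)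
    (hη : 0 < η) (hτ : 0 ≤ τ)
    (hT : ∀ (f : ℝ → ℂ) (F : ℝ), Measurable f → (∀ a, ‖f a‖ ≤ F) →
      ‖∫ a, f a ∂(lev ψ R) - ∫ a, f (g * a) ∂(ProbabilityTheory.cauchyMeasure 0 1)‖
        ≤ 2 * τ * F)
    (ρ' : Measure ℝ) [IsProbabilityMeasure ρ'] {x s : ℂ} (hx : x.im < 0) (hs : ‖s‖ ≤ 1 - η) :
    ‖Bs ((lev ψ R).conv ρ') (cayx x) s - Bs ρ' (cayx (x - g * Complex.I)) s‖ ≤ 2 * τ * (1 / η) := by
  have hb : ∀ (x : ℂ) (a : ℝ), x.im < 0 → ‖cayx x a / (1 - cayx x a * s)‖ ≤ 1 / η := by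
    intro x a hx
    have h1 := (hCX.1 x a hx.le).1
    have h2 : η ≤ ‖1 - cayx x a * s‖ := by
      have h3 : ‖(1 : ℂ)‖ - ‖cayx x a * s‖ ≤ ‖1 - cayx x a * s‖ := norm_sub_norm_le _ _
      have h4 : ‖cayx x a * s‖ ≤ 1 - η := by
        rw [norm_mul]
        calc ‖cayx x a‖ * ‖s‖ ≤ 1 * (1 - η) := by gcongr
          _ = 1 - η := one_mul _
      rw [norm_one] at h3
      linarith
    rw [norm_div]
    exact div_le_div₀ zero_le_one h1 hη h2
  have hm : ∀ x : ℂ, Measurable fun a : ℝ => cayx x a / (1 - cayx x a * s) := by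
    intro x
    have := meas_cayx x
    fun_prop
  set f : ℝ → ℂ := fun a => cayx x a / (1 - cayx x a * s) with hf
  have hfi : ∀ (μ : Measure ℝ) [IsFiniteMeasure μ], Integrable f μ := fun μ _ =>
    Integrable.of_bound (hm x).aestronglyMeasurable (1 / η)
      (ae_of_all _ fun a => hb x a hx)
  have hprod : Integrable (fun z : ℝ × ℝ => f (z.1 + z.2)) (ρ'.prod (lev ψ R)) :=
    Integrable.of_bound ((hm x).comp (by fun_prop)).aestronglyMeasurable (1 / η)
      (ae_of_all _ fun a => hb x _ hx)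
  have h1 : Bs ((lev ψ R).conv ρ') (cayx x) s = ∫ a', ∫ a, f (a' + a) ∂(lev ψ R) ∂ρ' := by
    unfold Bs
    rw [Measure.conv_comm]
    exact integral_conv (hfi _)
  have hgx : (x - g * Complex.I).im < 0 := by
    simp
    linarith
  have h2 : ∀ a' : ℝ, ‖(∫ a, f (a' + a) ∂(lev ψ R)) -
      cayx (x - g * Complex.I) a' / (1 - cayx (x - g * Complex.I) a' * s)‖ ≤
        2 * τ * (1 / η) := by
    intro a'
    have h3 := hT (fun a => f (a' + a)) (1 / η) ((hm x).comp (by fun_prop))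
      (fun a => hb x _ hx)
    have h4 := hCAU g (x + a') s hg (by simpa using hx) (by linarith)
    have h5 : ∀ a : ℝ, f (a' + g * a) =
        cayx (x + a') (g * a) / (1 - cayx (x + a') (g * a) * s) := by
      intro a
      have h6 : cayx x (a' + g * a) = cayx (x + a') (g * a) := by
        unfold cayx
        push_cast
        rw [← add_assoc x]
      simp only [hf, h6]
    have h7 : cayx (x + a' - g * Complex.I) 0 = cayx (x - g * Complex.I) a' := by
      unfold cayx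
      push_cast
      congr 1 <;> ring
    simp_rw [h5] at h3
    rw [h4, h7] at h3
    exact h3
  rw [h1]
  have h8 : Integrable (fun a' : ℝ => ∫ a, f (a' + a) ∂(lev ψ R)) ρ' := hprod.integral_prod_left
  have h9 : Integrable (fun a' : ℝ => cayx (x - g * Complex.I) a' /
      (1 - cayx (x - g * Complex.I) a' * s)) ρ' :=
    Integrable.of_bound (hm _).aestronglyMeasurable (1 / η)
      (ae_of_all _ fun a => hb _ a hgx)
  unfold Bs
  rw [← integral_sub h8 h9]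
  calc ‖∫ a', ((∫ a, f (a' + a) ∂(lev ψ R)) -
        cayx (x - g * Complex.I) a' / (1 - cayx (x - g * Complex.I) a' * s)) ∂ρ'‖
      ≤ 2 * τ * (1 / η) * ρ'.real Set.univ :=
        norm_integral_le_of_norm_le_const (ae_of_all _ h2)
    _ = 2 * τ * (1 / η) := by simp

end Pool.Agent.N803.NP.Lev1

namespace Pool.Agent.N803.NP

open MeasureTheory Filter Pool.Agent.W792.LL Pool.Agent.W792.WA Pool.Agent.N659.HB
open Pool.Agent.N803.NP.Lev1

theorem main : S_CAUI → S_TAN2 → S_SC1 → S_CX → S_LEV1 := by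
  intro hCAU hTAN hSC hCX p κ D ε hp hp2 hκ hκ1 hD hε
  obtain ⟨g, hg, hg1, hgε⟩ := exg p κ D ε hp hp2 hκ hD hε
  have hL : 0 < (D + 3) ^ 2 := by positivity
  set u : ℝ := 2 * g / (D + 3) ^ 2 with hu
  have hu0 : 0 < u := by positivity
  have hu1 : u ≤ 2 / 9 := by
    rw [hu, div_le_div_iff₀ hL (by norm_num)]
    nlinarith
  set η : ℝ := (1 - (1 - u / 2) ^ 2) * κ / 8 with hη
  have e1 : 1 - (1 - u / 2) ^ 2 = u - u ^ 2 / 4 := by ring
  have hη_low : u * κ / 16 ≤ η := by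
    rw [hη, e1]
    have : u / 2 ≤ u - u ^ 2 / 4 := by nlinarith
    calc u * κ / 16 = (u / 2) * κ / 8 := by ring
      _ ≤ _ := by gcongr
  have hη_up : η ≤ u / 8 := by
    rw [hη, e1]
    have h1 : u - u ^ 2 / 4 ≤ u := by nlinarith
    calc (u - u ^ 2 / 4) * κ / 8 ≤ u * 1 / 8 := by gcongr
      _ = u / 8 := by ring
  have hη0 : 0 < η := lt_of_lt_of_le (by positivity) hη_low
  set τ : ℝ := η * u / 64 with hτ
  have hτ0 : 0 < τ := by positivity
  have hτ1 : τ ≤ 1 / 2 := by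
    rw [hτ]
    nlinarith
  have hτ_low : κ / (256 * (D + 3) ^ 4) * g ^ 2 ≤ τ := by
    calc κ / (256 * (D + 3) ^ 4) * g ^ 2 = (u * κ / 16) * u / 64 := by
          rw [hu]
          field_simp
          ring
      _ ≤ τ := by
          rw [hτ]
          gcongr
  obtain ⟨ψ, R, hψ, hR, hHol, hmean, hT, hLp⟩ := hTAN g τ hg hτ0 hτ1
  refine ⟨ψ, R, η, 1 - u / 2, hψ, hR, hη0, by linarith, by linarith, by linarith, le_rfl, hHol,
    hmean, (hLp p hp hp2).trans (hgε τ hτ_low), ?_⟩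
  intro ρ' _ hρ' x s hx hxi hs
  have hq0 : 0 ≤ 1 - u := by linarith
  have hs1 : ‖s‖ ≤ 1 := by linarith
  have hae : ∀ᵐ a ∂ρ', ‖cayx (x - g * Complex.I) a‖ ≤ 1 - u := by
    have h1 : ∀ᵐ a ∂ρ', a ∈ Set.Icc (-1 : ℝ) 1 := by
      rw [ae_iff]
      exact hρ'
    filter_upwards [h1] with a ha
    exact cayx_le hD hg hg1 hx hxi (abs_le.2 ha)
  have hqs : (1 - u) * ‖s‖ < 1 := by
    have h1 : (1 - u) * ‖s‖ ≤ (1 - u) * 1 := mul_le_mul_of_nonneg_left hs1 hq0
    linarith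
  obtain ⟨_, _, hU0, hne, hB0⟩ := hSC ρ' (cayx (x - g * Complex.I)) (1 - u) s (meas_cayx _)
    hq0 (by linarith) hae hs1 hqs
  have havg := avg_lev hCX hCAU hg hη0 hτ0.le hT ρ' hxi hs
  have he1 : 2 * τ * (1 / η) = u / 32 := by
    rw [hτ]
    field_simp
    ring
  rw [he1] at havg
  have hfin := us_pert hU0 (by linarith) hs1 hne hB0 havg (by linarith)
  have hUs : Us ((lev ψ R).conv ρ') (cayx x) s = Bs ((lev ψ R).conv ρ') (cayx x) s /
      (1 + s * Bs ((lev ψ R).conv ρ') (cayx x) s) := rfl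
  rw [hUs]
  linarith

end Pool.Agent.N803.NP
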